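import Mathlib
import Pool.Agent.Helper292.ForceCH

/-!
# MP_ef066b_gt, Q1: `S₁(Ω, Ω) = S₁(Ω, O^{ω-gp})` is independent of ZFC

* CH implies that some set of reals satisfies `S₁(Ω, O^{ω-gp})` and not `S₁(Ω, Ω)`; and some
  forcing notion preserves `ω₁` and forces CH.
* The Borel conjecture implies that the two classes of sets of reals coincide.

The counterexample under CH is `X = ℚ ∪ {x α, z α - x α : α < ω₁}`, where `z α` runs through all
reals and `x α` is chosen generic over the data of all earlier stages. Every dense open set contains all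
but countably many points of `X`, so `X` is a Lusin set. Selections with each point covered
infinitely often exist since `X` is a Lusin set. For the grouping let `T n` be open
sets whose tails have dense unions. By compactness of the intervals of possible `z`, blocks can be
chosen whose unions `O k` are good: for all `z` and `a < b` some `x` between `a` and `b` has `x`
and `z - x` in `O k`, for all large `k`. Genericity of `x α` then gives inductively that each
finite subset of `X` is contained in infinitely many blocks. `S₁(Ω, Ω)` fails because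
`X + X` is the whole line: consider the traces of open sets `T` with `T + T` of small measure.
-/

set_option autoImplicit false

namespace Pool.Agent.Results.MP_ef066b_gt.Independence

open Set Topology MeasureTheory
open scoped Pointwise

section Defs

variable {X : Type*} [TopologicalSpace X]

/-- An open cover of the space `X`: open sets with union `X`, none of them equal to `X`. -/
def OpenCover (𝒰 : Set (Set X)) : Prop :=
  (∀ U ∈ 𝒰, IsOpen U) ∧ ⋃₀ 𝒰 = univ ∧ univ ∉ 𝒰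

/-- Open `ω`-covers. -/
def OmegaCover (𝒰 : Set (Set X)) : Prop :=
  OpenCover 𝒰 ∧ ∀ F : Set X, F.Finite → ∃ U ∈ 𝒰, F ⊆ U

/-- `𝒰` can be partitioned into infinitely many finite covers of `X`. -/
def Multifinite (𝒰 : Set (Set X)) : Prop :=
  ∃ P : Set (Set (Set X)), P.Infinite ∧ P.PairwiseDisjoint id ∧ ⋃₀ P = 𝒰 ∧
    ∀ 𝓕 ∈ P, 𝓕.Finite ∧ 𝓕.Nonempty ∧ ⋃₀ 𝓕 = univ

/-- `𝒰` is multifinite, or has a partition into finite sets `𝓕 n` whose unions form an
`ω`-cover. -/
def OmegaGroupable (𝒰 : Set (Set X)) : Prop :=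
  Multifinite 𝒰 ∨
    ∃ 𝓕 : ℕ → Set (Set X), (∀ n, (𝓕 n).Finite ∧ (𝓕 n).Nonempty) ∧
      (∀ m n, m ≠ n → Disjoint (𝓕 m) (𝓕 n)) ∧ ⋃ n, 𝓕 n = 𝒰 ∧
      OmegaCover (range fun n => ⋃₀ 𝓕 n)

/-- `ω`-groupable open covers. -/
def OmegaGpCover (𝒰 : Set (Set X)) : Prop := OpenCover 𝒰 ∧ OmegaGroupable 𝒰

/-- The selection principle `S₁(𝒜, ℬ)` for the space `X`. -/
def S1 (𝒜 ℬ : Set (Set X) → Prop) : Prop :=
  ∀ 𝒰 : ℕ → Set (Set X), (∀ n, 𝒜 (𝒰 n)) →
    ∃ U : ℕ → Set X, (∀ n, U n ∈ 𝒰 n) ∧ ℬ (range U)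

end Defs

/-- Strong measure zero sets of reals. -/
def StrongMeasureZero (X : Set ℝ) : Prop :=
  ∀ ε : ℕ → ℝ, (∀ n, 0 < ε n) → ∃ a : ℕ → ℝ, X ⊆ ⋃ n, Ioo (a n) (a n + ε n)

/-- Borel's conjecture. -/
def BorelConjecture : Prop := ∀ X : Set ℝ, StrongMeasureZero X → X.Countable

section Rec

lemma exists_rec {ι : Type*} [LinearOrder ι] [WellFoundedLT ι] {β : Type*}
    (P : (a : ι) → ((b : ι) → b < a → β) → β → Prop) (h : ∀ a f, ∃ y, P a f y) :
    ∃ x : ι → β, ∀ a, P a (fun b _ => x b) (x a) := by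
  choose g hg using h
  refine ⟨(wellFounded_lt (α := ι)).fix (fun a f => g a f), fun a => ?_⟩
  rw [WellFounded.fix_eq]
  exact hg _ _

end Rec

section Blocks

lemma exists_block {m : ℕ → ℕ} (hm : StrictMono m) (h0 : m 0 = 0) (n : ℕ) :
    ∃ t, n ∈ Ico (m t) (m (t + 1)) := by
  have key : ∀ T, n < m T → ∃ t, n ∈ Ico (m t) (m (t + 1)) := by
    intro T
    induction T with
    | zero => intro h; omega
    | succ T ih =>
      intro h
      rcases lt_or_ge n (m T) with h1 | h1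
      · exact ih h1
      · exact ⟨T, h1, h⟩
  exact key (n + 1) (lt_of_lt_of_le (Nat.lt_succ_self n) (hm.id_le _))

lemma block_unique {m : ℕ → ℕ} (hm : StrictMono m) {n s t : ℕ} (h1 : n ∈ Ico (m s) (m (s + 1)))
    (h2 : n ∈ Ico (m t) (m (t + 1))) : s = t := by
  rcases lt_trichotomy s t with h | h | h
  · have := hm.monotone (Nat.succ_le_of_lt h)
    have h3 := h1.2
    have h4 := h2.1
    simp only [Nat.succ_eq_add_one] at this
    omega
  · exact h
  · have := hm.monotone (Nat.succ_le_of_lt h)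
    have h3 := h2.2
    have h4 := h1.1
    simp only [Nat.succ_eq_add_one] at this
    omega

variable {X : Type*}

lemma block_fin (V : ℕ → Set X) {m : ℕ → ℕ} (hm : StrictMono m) (t : ℕ) :
    (V '' Ico (m t) (m (t + 1))).Finite ∧ (V '' Ico (m t) (m (t + 1))).Nonempty :=
  ⟨(Set.finite_Ico _ _).image _, (nonempty_Ico.2 (hm (Nat.lt_succ_self t))).image _⟩

lemma block_disj {V : ℕ → Set X} (hV : Function.Injective V) {m : ℕ → ℕ} (hm : StrictMono m)
    (s t : ℕ) (hst : s ≠ t) :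
    Disjoint (V '' Ico (m s) (m (s + 1))) (V '' Ico (m t) (m (t + 1))) := by
  rw [Set.disjoint_left]
  rintro _ ⟨n, hn, rfl⟩ ⟨n', hn', h⟩
  rw [hV h] at hn'
  exact hst (block_unique hm hn hn')

lemma block_union (V : ℕ → Set X) {m : ℕ → ℕ} (hm : StrictMono m) (h0 : m 0 = 0) :
    ⋃ t, V '' Ico (m t) (m (t + 1)) = range V := by
  apply Subset.antisymm
  · exact iUnion_subset fun t => image_subset_range _ _
  · rintro _ ⟨n, rfl⟩
    obtain ⟨t, ht⟩ := exists_block hm h0 n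
    exact mem_iUnion.2 ⟨t, n, ht, rfl⟩

/-- a strictly increasing sequence starting at `0` whose consecutive terms are related. -/
lemma exists_seq (p : ℕ → ℕ → ℕ → Prop) (h : ∀ i j, ∃ j', j < j' ∧ p i j j') :
    ∃ m : ℕ → ℕ, StrictMono m ∧ m 0 = 0 ∧ ∀ i, p i (m i) (m (i + 1)) := by
  choose g hg1 hg2 using h
  refine ⟨fun n => Nat.rec 0 (fun i a => g i a) n, strictMono_nat_of_lt_succ fun i => ?_, rfl,
    fun i => ?_⟩
  · exact hg1 _ _
  · exact hg2 _ _

end Blocks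

section Omega

variable {X : Type*} [TopologicalSpace X]

lemma omega_avoid {𝒰 : Set (Set X)} (h : OmegaCover 𝒰) {𝒮 : Set (Set X)} (hS : 𝒮.Finite)
    {F : Set X} (hF : F.Finite) : ∃ U ∈ 𝒰, F ⊆ U ∧ U ∉ 𝒮 := by
  have ha : ∀ S : Set X, ∃ a : Set X, a.Finite ∧ (S ≠ univ → ¬ a ⊆ S) := by
    intro S
    by_cases hS : S = univ
    · exact ⟨∅, finite_empty, fun h => (h hS).elim⟩
    · obtain ⟨x, hx⟩ := (ne_univ_iff_exists_notMem S).1 hS
      exact ⟨{x}, finite_singleton x, fun _ h => hx (h rfl)⟩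
  choose a ha1 ha2 using ha
  obtain ⟨U, hU, hFU⟩ := h.2 (F ∪ ⋃ S ∈ 𝒮, a S) (hF.union (hS.biUnion fun S _ => ha1 S))
  refine ⟨U, hU, subset_union_left.trans hFU, fun hUS => ?_⟩
  refine ha2 U (fun he => h.1.2.2 (he ▸ hU)) ?_
  exact (subset_biUnion_of_mem (u := a) hUS).trans (subset_union_right.trans hFU)

lemma omega_infinite {𝒰 : Set (Set X)} (h : OmegaCover 𝒰) : 𝒰.Infinite := by
  intro hf
  obtain ⟨U, hU, _, hU'⟩ := omega_avoid h hf (finite_empty (α := X))
  exact hU' hU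

lemma exists_inj_selection {𝒰 : ℕ → Set (Set X)} (h : ∀ n, OmegaCover (𝒰 n)) (F : ℕ → Set X)
    (hF : ∀ n, (F n).Finite) :
    ∃ U : ℕ → Set X, (∀ n, U n ∈ 𝒰 n) ∧ (∀ n, F n ⊆ U n) ∧ Function.Injective U := by
  obtain ⟨U, hU⟩ := exists_rec (ι := ℕ) (β := Set X)
    (fun n f y => y ∈ 𝒰 n ∧ F n ⊆ y ∧ ∀ m (hm : m < n), y ≠ f m hm) (by
      intro n f
      have hfin : (range fun m : Fin n => f m.1 m.2).Finite := finite_range _
      obtain ⟨y, h1, h2, h3⟩ := omega_avoid (h n) hfin (hF n)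
      exact ⟨y, h1, h2, fun m hm he => h3 ⟨⟨m, hm⟩, he.symm⟩⟩)
  refine ⟨U, fun n => (hU n).1, fun n => (hU n).2.1, fun a b hab => ?_⟩
  rcases lt_trichotomy a b with hl | hl | hl
  · exact ((hU b).2.2 a hl hab.symm).elim
  · exact hl
  · exact ((hU a).2.2 b hl hab).elim

omit [TopologicalSpace X] in
/-- an injective enumeration -/
lemma exists_enum {𝒱 : Set (Set X)} (hc : 𝒱.Countable) (hi : 𝒱.Infinite) :
    ∃ V : ℕ → Set X, Function.Injective V ∧ range V = 𝒱 := by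
  obtain ⟨d⟩ := Set.countable_infinite_iff_nonempty_denumerable.1 ⟨hc, hi⟩
  refine ⟨fun n => ((Denumerable.eqv 𝒱).symm n : Set X), ?_, ?_⟩
  · exact Subtype.val_injective.comp (Equiv.injective _)
  · apply Subset.antisymm
    · rintro _ ⟨n, rfl⟩
      exact Subtype.mem _
    · intro V hV
      exact ⟨Denumerable.eqv 𝒱 ⟨V, hV⟩, by simp⟩

lemma groupable_of_inf {V : ℕ → Set X} (hV : Function.Injective V) (hne : ∀ n, V n ≠ univ)
    (hopen : ∀ n, IsOpen (V n)) {M : ℕ → ℕ} (hM : StrictMono M) (hM0 : M 0 = 0)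
    (hinf : ∀ F : Set X, F.Finite →
      {i | F ⊆ ⋃₀ (V '' Ico (M i) (M (i + 1)))}.Infinite) : OmegaGroupable (range V) := by
  by_cases hS : {i | ⋃₀ (V '' Ico (M i) (M (i + 1))) = univ}.Infinite
  · left
    obtain ⟨t, ht, ht0, htp⟩ := exists_seq
      (fun _ j j' => ∃ i ∈ Ico j j', ⋃₀ (V '' Ico (M i) (M (i + 1))) = univ) (by
        intro _ j
        obtain ⟨i, hi, hji⟩ := hS.exists_gt j
        exact ⟨i + 1, by omega, i, ⟨hji.le, by omega⟩, hi⟩)
    have hMt : StrictMono (fun s => M (t s)) := hM.comp ht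
    have hMt0 : M (t 0) = 0 := by rw [ht0, hM0]
    have hinj : Function.Injective fun s => V '' Ico (M (t s)) (M (t (s + 1))) := by
      intro s s' hss
      by_contra hne'
      have h1 := block_disj hV hMt s s' hne'
      have h2 := (block_fin V hMt s).2
      simp only at hss h1 h2
      rw [← hss] at h1
      exact h2.ne_empty (disjoint_self.1 h1)
    refine ⟨range fun s => V '' Ico (M (t s)) (M (t (s + 1))), infinite_range_of_injective hinj,
      ?_, ?_, ?_⟩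
    · rintro _ ⟨s, rfl⟩ _ ⟨s', rfl⟩ hss
      exact block_disj hV hMt s s' (fun h => hss (by rw [h]))
    · rw [sUnion_range]
      exact block_union V hMt hMt0
    · rintro _ ⟨s, rfl⟩
      refine ⟨(block_fin V hMt s).1, (block_fin V hMt s).2, ?_⟩
      obtain ⟨i, hi, hiu⟩ := htp s
      apply Subset.antisymm (subset_univ _)
      rw [← hiu]
      apply sUnion_subset_sUnion
      apply image_mono
      exact Ico_subset_Ico (hM.monotone hi.1) (hM.monotone hi.2)
  · right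
    rw [not_infinite] at hS
    obtain ⟨i₀, hi₀⟩ := hS.bddAbove
    set j₀ := i₀ + 1 with hj₀
    have hgood : ∀ i, j₀ ≤ i → ⋃₀ (V '' Ico (M i) (M (i + 1))) ≠ univ := by
      intro i hi hu
      have := hi₀ hu
      omega
    set N := M j₀ with hN
    have hjN : j₀ ≤ N := hM.id_le _
    set M' : ℕ → ℕ := fun t => if t ≤ N then t else M (j₀ + (t - N)) with hM'
    have h1 : ∀ t, t ≤ N → M' t = t := fun t ht => by simp [hM', ht]
    have h2 : ∀ t, M' (N + t) = M (j₀ + t) := by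
      intro t
      rcases Nat.eq_zero_or_pos t with rfl | ht
      · simp [hM', hN]
      · have : ¬ (N + t ≤ N) := by omega
        simp only [hM', this, if_false]
        congr 1
        omega
    have hM'mono : StrictMono M' := by
      apply strictMono_nat_of_lt_succ
      intro t
      rcases lt_or_ge t N with ht | ht
      · rw [h1 t ht.le, h1 (t + 1) ht]
        omega
      · obtain ⟨s, rfl⟩ := Nat.exists_eq_add_of_le ht
        have e1 : M' (N + s + 1) = M (j₀ + (s + 1)) := h2 (s + 1)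
        rw [h2, e1]
        exact hM (by omega)
    have hM'0 : M' 0 = 0 := h1 0 (Nat.zero_le _)
    refine ⟨fun t => V '' Ico (M' t) (M' (t + 1)), fun t => block_fin V hM'mono t,
      fun s t hst => block_disj hV hM'mono s t hst, block_union V hM'mono hM'0, ⟨?_, ?_, ?_⟩, ?_⟩
    · rintro _ ⟨t, rfl⟩
      apply isOpen_sUnion
      rintro _ ⟨n, _, rfl⟩
      exact hopen n
    · apply Subset.antisymm (subset_univ _)
      intro x _
      obtain ⟨i, hi, hij⟩ := (hinf {x} (finite_singleton x)).exists_gt j₀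
      obtain ⟨s, rfl⟩ := Nat.exists_eq_add_of_le hij.le
      refine ⟨_, ⟨N + s, rfl⟩, ?_⟩
      have e1 : M' (N + s + 1) = M (j₀ + s + 1) := h2 (s + 1)
      simp only
      rw [h2, e1]
      exact hi rfl
    · rintro ⟨t, ht⟩
      simp only at ht
      rcases lt_or_ge t N with htN | htN
      · rw [h1 t htN.le, h1 (t + 1) htN] at ht
        have : Ico t (t + 1) = {t} := by
          ext n; simp only [mem_Ico, mem_singleton_iff]; omega
        rw [this, image_singleton, sUnion_singleton] at ht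
        exact hne t ht
      · obtain ⟨s, rfl⟩ := Nat.exists_eq_add_of_le htN
        have e1 : M' (N + s + 1) = M (j₀ + s + 1) := h2 (s + 1)
        rw [h2, e1] at ht
        exact hgood (j₀ + s) (by omega) ht
    · intro F hF
      obtain ⟨i, hi, hij⟩ := (hinf F hF).exists_gt j₀
      obtain ⟨s, rfl⟩ := Nat.exists_eq_add_of_le hij.le
      refine ⟨_, ⟨N + s, rfl⟩, ?_⟩
      have e1 : M' (N + s + 1) = M (j₀ + s + 1) := h2 (s + 1)
      simp only
      rw [h2, e1]
      exact hi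

/-- The easy inclusion. -/
lemma gp_of_omega (h : S1 (X := X) OmegaCover OmegaCover) :
    S1 (X := X) OmegaCover OmegaGpCover := by
  intro 𝒰 h𝒰
  obtain ⟨U, hU, hω⟩ := h 𝒰 h𝒰
  refine ⟨U, hU, hω.1, Or.inr ?_⟩
  obtain ⟨V, hV, hVr⟩ := exists_enum (countable_range U) (omega_infinite hω)
  refine ⟨fun n => {V n}, fun n => ⟨finite_singleton _, singleton_nonempty _⟩, ?_, ?_, ?_⟩
  · intro m n hmn
    rw [disjoint_singleton]
    exact fun he => hmn (hV he)
  · rw [← hVr]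
    ext W
    simp [eq_comm]
  · simp only [sUnion_singleton]
    rw [show (fun n => V n) = V from rfl, hVr]
    exact hω

lemma omega_of_countable [Countable X] : S1 (X := X) OmegaCover OmegaCover := by
  intro 𝒰 h𝒰
  classical
  obtain ⟨F, hF⟩ := exists_surjective_nat (Finset X)
  have : ∀ n, ∃ U ∈ 𝒰 n, (F n : Set X) ⊆ U := fun n => (h𝒰 n).2 _ (F n).finite_toSet
  choose U hU hFU using this
  have hcov : ∀ G : Set X, G.Finite → ∃ V ∈ range U, G ⊆ V := by
    intro G hG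
    obtain ⟨n, hn⟩ := hF hG.toFinset
    refine ⟨U n, ⟨n, rfl⟩, ?_⟩
    have := hFU n
    rw [hn, hG.coe_toFinset] at this
    exact this
  refine ⟨U, hU, ⟨?_, ?_, ?_⟩, hcov⟩
  · rintro _ ⟨n, rfl⟩
    exact (h𝒰 n).1.1 _ (hU n)
  · apply Subset.antisymm (subset_univ _)
    intro x _
    obtain ⟨V, hV, hx⟩ := hcov {x} (finite_singleton x)
    exact ⟨V, hV, hx rfl⟩
  · rintro ⟨n, hn⟩
    exact (h𝒰 n).1.2.2 (hn ▸ hU n)

end Omega

section BC

lemma smz_of_gp {X : Set ℝ} (hX : X.Infinite)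
    (h : S1 (X := X) OmegaCover OmegaGpCover) : StrongMeasureZero X := by
  intro ε hε
  have hXi : Infinite X := hX.to_subtype
  set 𝒰 : ℕ → Set (Set X) := fun n => {U | U ≠ univ ∧ ∃ a b : ℕ → ℝ,
    (∀ i, b i ≤ a i + ε (Nat.pair n i)) ∧ U = Subtype.val ⁻¹' (⋃ i, Ioo (a i) (b i))} with h𝒰
  have hfin : ∀ n, ∀ F : Set X, F.Finite → ∃ U ∈ 𝒰 n, F ⊆ U := by
    intro n F hF
    obtain ⟨x₀, hx₀⟩ : ∃ x₀ : X, x₀ ∉ F := hF.exists_notMem
    obtain ⟨m, f, _, hf⟩ := hF.fin_param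
    set p : ℕ → X := fun i => if h : i < m then f ⟨i, h⟩ else x₀ with hp
    set r : ℕ → ℝ := fun i => min (ε (Nat.pair n i) / 2) |(p i : ℝ) - x₀| with hr
    refine ⟨Subtype.val ⁻¹' (⋃ i, Ioo ((p i : ℝ) - r i) (p i + r i)), ⟨?_, _, _, ?_, rfl⟩, ?_⟩
    · intro hu
      have : x₀ ∈ (Subtype.val ⁻¹' (⋃ i, Ioo ((p i : ℝ) - r i) (p i + r i)) : Set X) := by
        rw [hu]; trivial
      obtain ⟨i, hi1, hi2⟩ := mem_iUnion.1 this
      have h1 : r i ≤ |(p i : ℝ) - x₀| := min_le_right _ _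
      have h2 : |(p i : ℝ) - x₀| < r i := by
        rw [abs_lt]; constructor <;> linarith
      linarith
    · intro i
      have h1 : r i ≤ ε (Nat.pair n i) / 2 := min_le_left _ _
      linarith
    · intro x hx
      rw [← hf] at hx
      obtain ⟨⟨i, hi⟩, rfl⟩ := hx
      have hpi : p i = f ⟨i, hi⟩ := by simp [hp, hi]
      have hne : (p i : ℝ) ≠ x₀ := by
        intro he
        apply hx₀
        rw [← Subtype.ext he, hpi, ← hf]
        exact ⟨_, rfl⟩
      have hpos : 0 < r i := by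
        apply lt_min
        · have := hε (Nat.pair n i)
          linarith
        · exact abs_pos.2 (sub_ne_zero.2 hne)
      refine mem_iUnion.2 ⟨i, ?_⟩
      rw [← hpi]
      constructor <;> linarith
  have hω : ∀ n, OmegaCover (𝒰 n) := by
    intro n
    refine ⟨⟨?_, ?_, ?_⟩, hfin n⟩
    · rintro U ⟨_, a, b, _, rfl⟩
      exact (isOpen_iUnion fun i => isOpen_Ioo).preimage continuous_subtype_val
    · apply Subset.antisymm (subset_univ _)
      intro x _
      obtain ⟨U, hU, hx⟩ := hfin n {x} (finite_singleton x)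
      exact ⟨U, hU, hx rfl⟩
    · exact fun hu => hu.1 rfl
  obtain ⟨U, hU, hcov⟩ := h 𝒰 hω
  have hU' : ∀ n, ∃ a b : ℕ → ℝ, (∀ i, b i ≤ a i + ε (Nat.pair n i)) ∧
      U n = Subtype.val ⁻¹' (⋃ i, Ioo (a i) (b i)) := fun n => (hU n).2
  choose a b hab hUab using hU'
  refine ⟨fun j => a j.unpair.1 j.unpair.2, fun x hx => ?_⟩
  have hx' : (⟨x, hx⟩ : X) ∈ ⋃₀ range U := by
    rw [hcov.1.2.1]; trivial
  obtain ⟨_, ⟨n, rfl⟩, hn⟩ := hx'
  rw [hUab n] at hn
  obtain ⟨i, hi1, hi2⟩ := mem_iUnion.1 hn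
  refine mem_iUnion.2 ⟨Nat.pair n i, ?_⟩
  have := hab n i
  simp only [Nat.unpair_pair]
  exact ⟨hi1, by simp only at hi2; linarith⟩

lemma iff_of_BC (hBC : BorelConjecture) (X : Set ℝ) :
    S1 (X := X) OmegaCover OmegaCover ↔ S1 (X := X) OmegaCover OmegaGpCover := by
  refine ⟨gp_of_omega, fun h => ?_⟩
  have hc : X.Countable := by
    by_cases hX : X.Finite
    · exact hX.countable
    · exact hBC X (smz_of_gp hX h)
  have := hc.to_subtype
  exact omega_of_countable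

end BC

section CH

open TopologicalSpace

/-- `O` is good if for all real `z` and `a < b`, for all large `k` some `x` strictly between `a`
and `b` has `x ∈ O k` and `z - x ∈ O k`. -/
def Good (O : ℕ → Opens ℝ) : Prop :=
  ∀ z a b : ℝ, a < b → ∃ k₀, ∀ k, k₀ ≤ k → ∃ x ∈ Ioo a b, x ∈ O k ∧ z - x ∈ O k

lemma open_reflect (D : Opens ℝ) (z : ℝ) : IsOpen {x : ℝ | z - x ∈ D} :=
  D.isOpen.preimage (continuous_const.sub continuous_id)

lemma dense_reflect {D : Set ℝ} (hD : Dense D) (z : ℝ) : Dense {x : ℝ | z - x ∈ D} := by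
  have : {x : ℝ | z - x ∈ D} = (Homeomorph.subLeft z) ⁻¹' D := rfl
  rw [this]
  exact hD.preimage (Homeomorph.subLeft z).isOpenMap

lemma meets {D : Set ℝ} (ho : IsOpen D) (hD : Dense D) (z : ℝ) {a b : ℝ} (hab : a < b) :
    ∃ x ∈ Ioo a b, x ∈ D ∧ z - x ∈ D := by
  have h2 : Dense (D ∩ {x : ℝ | z - x ∈ D}) := hD.inter_of_isOpen_left (dense_reflect hD z) ho
  obtain ⟨x, hx1, hx2⟩ := h2.inter_open_nonempty _ isOpen_Ioo (nonempty_Ioo.2 hab)
  exact ⟨x, hx1, hx2.1, hx2.2⟩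

lemma good_const {D : Opens ℝ} (hD : Dense (D : Set ℝ)) : Good (fun _ => D) :=
  fun z _ _ hab => ⟨0, fun _ _ => meets D.isOpen hD z hab⟩

/-- the pair `{x, z - x}` with sum `z` -/
def Pair (z x : ℝ) : Set ℝ := {x, z - x}

lemma pair_finite {z x : ℝ} : (Pair z x).Finite := (finite_singleton _).insert _

/-- One step of the construction: a point generic over countably many data. -/
lemma step {S : Set ℝ} (hS : S.Countable) {κ : Type} [Countable κ] (c : κ → ℕ → Opens ℝ) (z : ℝ) :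
    ∃ y : ℝ, ∀ b : κ, Good (c b) → ∀ F : Set ℝ, F.Finite → F ⊆ S →
      {k | F ⊆ c b k}.Infinite → {k | F ⊆ c b k ∧ Pair z y ⊆ c b k}.Infinite := by
  classical
  have hc : {F : Set ℝ | F.Finite ∧ F ⊆ S}.Countable := Set.countable_ofPred_finite_subset hS
  have := hc.to_subtype
  set D : κ × {F : Set ℝ // F ∈ {F : Set ℝ | F.Finite ∧ F ⊆ S}} × ℕ → Set ℝ := fun i =>
    if Good (c i.1) ∧ {k | (i.2.1 : Set ℝ) ⊆ c i.1 k}.Infinite then
      ⋃ k ∈ {k | i.2.2 ≤ k ∧ (i.2.1 : Set ℝ) ⊆ c i.1 k}, ((c i.1 k : Set ℝ) ∩ {x | z - x ∈ c i.1 k})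
    else univ with hD
  have ho : ∀ i, IsOpen (D i) := by
    intro i
    simp only [hD]
    split_ifs
    · exact isOpen_biUnion fun k _ => (c i.1 k).isOpen.inter (open_reflect _ _)
    · exact isOpen_univ
  have hd : ∀ i, Dense (D i) := by
    intro i
    simp only [hD]
    split_ifs with hi
    · rw [dense_iff_inter_open]
      rintro U hU ⟨u, hu⟩
      obtain ⟨r, hr, hball⟩ := Metric.isOpen_iff.1 hU u hu
      obtain ⟨k₀, hk₀⟩ := hi.1 z (u - r) (u + r) (by linarith)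
      obtain ⟨k, hk, hkk⟩ := hi.2.exists_gt (max k₀ i.2.2)
      obtain ⟨x, hx, hx1, hx2⟩ := hk₀ k ((le_max_left _ _).trans hkk.le)
      refine ⟨x, hball ?_, ?_⟩
      · rw [Real.ball_eq_Ioo]; exact hx
      · exact mem_biUnion (show k ∈ {k | i.2.2 ≤ k ∧ (i.2.1 : Set ℝ) ⊆ c i.1 k} from
          ⟨(le_max_right _ _).trans hkk.le, hk⟩) ⟨hx1, hx2⟩
    · exact dense_univ
  obtain ⟨y, hy⟩ := (dense_iInter_of_isOpen ho hd).nonempty
  rw [mem_iInter] at hy
  refine ⟨y, fun b hb F hF hFS hinf => ?_⟩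
  apply Set.infinite_of_forall_exists_gt
  intro k₀
  have h1 := hy (b, ⟨F, hF, hFS⟩, k₀ + 1)
  have h2 : Good (c b) ∧ {k | F ⊆ c b k}.Infinite := ⟨hb, hinf⟩
  simp only [hD, h2, and_self, if_true] at h1
  obtain ⟨k, hk, hy1, hy2⟩ := mem_iUnion₂.1 h1
  refine ⟨k, ⟨hk.2, ?_⟩, hk.1⟩
  rintro w (rfl | rfl)
  · exact hy1
  · exact hy2

lemma mk_opens_le : Cardinal.mk (Opens ℝ) ≤ Cardinal.continuum := by
  obtain ⟨b, hbc, _, hb⟩ := exists_countable_basis ℝ
  have hinj : Function.Injective (fun (O : Opens ℝ) => ({s : b | (s : Set ℝ) ⊆ O} : Set b)) := by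
    intro O O' h
    apply Opens.ext
    rw [hb.open_eq_sUnion' O.isOpen, hb.open_eq_sUnion' O'.isOpen]
    congr 1
    ext s
    simp only [Set.mem_ofPred_eq]
    constructor
    · rintro ⟨h1, h2⟩
      have : (⟨s, h1⟩ : b) ∈ ({s : b | (s : Set ℝ) ⊆ O} : Set b) := h2
      simp only at h
      rw [h] at this
      exact ⟨h1, this⟩
    · rintro ⟨h1, h2⟩
      have : (⟨s, h1⟩ : b) ∈ ({s : b | (s : Set ℝ) ⊆ O'} : Set b) := h2
      simp only at h
      rw [← h] at this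
      exact ⟨h1, this⟩
  refine (Cardinal.mk_le_of_injective hinj).trans ?_
  rw [Cardinal.mk_set, ← Cardinal.two_power_aleph0]
  exact Cardinal.power_le_power_left two_ne_zero (Cardinal.mk_le_aleph0_iff.2 hbc.to_subtype)

lemma mk_code_le : Cardinal.mk ((ℕ → Opens ℝ) × ℝ) ≤ Cardinal.continuum := by
  rw [Cardinal.mk_prod, Cardinal.lift_id, Cardinal.lift_id, Cardinal.mk_real]
  have h1 : Cardinal.mk (ℕ → Opens ℝ) ≤ Cardinal.continuum := by
    have : Cardinal.mk (ℕ → Opens ℝ) = Cardinal.mk (Opens ℝ) ^ Cardinal.mk ℕ := by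
      rw [Cardinal.power_def]
    rw [this, Cardinal.mk_nat]
    exact (Cardinal.power_le_power_right mk_opens_le).trans Cardinal.continuum_power_aleph0.le
  exact (mul_le_mul_left h1 _).trans (Cardinal.continuum_mul_self).le

theorem exists_data (CH : (Cardinal.aleph 1 : Cardinal.{0}) = Cardinal.continuum) :
    ∃ (ι : Type) (_ : LinearOrder ι) (_ : WellFoundedLT ι) (c : ι → ℕ → Opens ℝ) (z x : ι → ℝ),
      (∀ α : ι, (Iio α).Countable) ∧ (∀ C w, ∃ α, c α = C ∧ z α = w) ∧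
      ∀ α, ∀ β < α, Good (c β) → ∀ F : Set ℝ, F.Finite → F ⊆ ⋃ γ ∈ Iio α, Pair (z γ) (x γ) →
        {k | F ⊆ c β k}.Infinite → {k | F ⊆ c β k ∧ Pair (z α) (x α) ⊆ c β k}.Infinite := by
  set ι := (Cardinal.aleph 1 : Cardinal.{0}).ord.ToType with hι
  have hmk : Cardinal.mk ι = Cardinal.aleph 1 := Cardinal.mk_ord_toType _
  have hcount : ∀ α : ι, (Iio α).Countable := by
    intro α
    have h : Cardinal.mk (Iio α) < Cardinal.aleph 1 := Cardinal.mk_Iio_toType_ord_lt α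
    exact (Cardinal.countable_iff_lt_aleph_one _).2 h
  have hle : Cardinal.mk ((ℕ → Opens ℝ) × ℝ) ≤ Cardinal.mk ι := by
    rw [hmk, CH]; exact mk_code_le
  obtain ⟨e⟩ := hle
  set g : ι → (ℕ → Opens ℝ) × ℝ := Function.invFun e with hg
  have hgs : Function.Surjective g := Function.invFun_surjective e.injective
  obtain ⟨x, hx⟩ := exists_rec (ι := ι) (β := ℝ) (fun α f y => ∀ β < α, Good (g β).1 →
      ∀ F : Set ℝ, F.Finite → F ⊆ (⋃ γ, ⋃ h : γ < α, Pair (g γ).2 (f γ h)) →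
        {k | F ⊆ (g β).1 k}.Infinite →
          {k | F ⊆ (g β).1 k ∧ Pair (g α).2 y ⊆ (g β).1 k}.Infinite) (by
    intro α f
    have := (hcount α).to_subtype
    have hS : (⋃ γ, ⋃ h : γ < α, Pair (g γ).2 (f γ h)).Countable := by
      have : (⋃ γ, ⋃ h : γ < α, Pair (g γ).2 (f γ h)) =
          ⋃ γ : Iio α, Pair (g γ).2 (f γ.1 γ.2) := by
        ext w; simp
      rw [this]
      exact countable_iUnion fun γ => pair_finite.countable
    obtain ⟨y, hy⟩ := step hS (κ := Iio α) (fun β => (g β).1) (g α).2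
    exact ⟨y, fun β hβ => hy ⟨β, hβ⟩⟩)
  refine ⟨ι, inferInstance, inferInstance, fun α => (g α).1, fun α => (g α).2, x, hcount,
    fun C w => ?_, ?_⟩
  · obtain ⟨α, hα⟩ := hgs (C, w)
    exact ⟨α, by simp [hα], by simp [hα]⟩
  · intro α β hβ hG F hF hFS hinf
    exact hx α β hβ hG F hF hFS hinf

section Gen

variable {ι : Type} [LinearOrder ι] [WellFoundedLT ι] {c : ι → ℕ → Opens ℝ} {z x : ι → ℝ}

omit [WellFoundedLT ι] in
lemma finite_max {p : ι → Set ℝ} {S : Set ι} {F : Set ℝ} (hF : F.Finite) (hne : F.Nonempty)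
    (h : F ⊆ ⋃ γ ∈ S, p γ) : ∃ δ ∈ S, F ⊆ ⋃ γ ∈ S ∩ Iic δ, p γ := by
  have h' : ∀ f : ℝ, ∃ γ, f ∈ F → γ ∈ S ∧ f ∈ p γ := by
    intro f
    obtain ⟨f₀, hf₀⟩ := hne
    by_cases hf : f ∈ F
    · obtain ⟨γ, h1, h2⟩ := mem_iUnion₂.1 (h hf)
      exact ⟨γ, fun _ => ⟨h1, h2⟩⟩
    · obtain ⟨γ, h1, h2⟩ := mem_iUnion₂.1 (h hf₀)
      exact ⟨γ, fun h => (hf h).elim⟩
  choose g hg using h'
  obtain ⟨a, ha, hmax⟩ := Set.exists_max_image F g hF hne
  refine ⟨g a, (hg a ha).1, fun f hf => ?_⟩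
  exact mem_iUnion₂.2 ⟨g f, ⟨(hg f hf).1, hmax f hf⟩, (hg f hf).2⟩

/-- the genericity property of the construction -/
def Gen (c : ι → ℕ → Opens ℝ) (z x : ι → ℝ) : Prop :=
  ∀ α, ∀ β < α, Good (c β) → ∀ F : Set ℝ, F.Finite → F ⊆ ⋃ γ ∈ Iio α, Pair (z γ) (x γ) →
    {k | F ⊆ c β k}.Infinite → {k | F ⊆ c β k ∧ Pair (z α) (x α) ⊆ c β k}.Infinite

lemma key_aux (hgen : Gen c z x) {β : ι} (hG : Good (c β)) (δ : ι) :
    ∀ F : Set ℝ, F.Finite → F ⊆ ⋃ γ ∈ Ioi β ∩ Iic δ, Pair (z γ) (x γ) →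
      {k | F ⊆ c β k}.Infinite := by
  induction δ using WellFoundedLT.induction with
  | ind δ ih =>
    intro F hF hFS
    by_cases hβδ : β < δ
    · have hmain : {k | F \ Pair (z δ) (x δ) ⊆ c β k}.Infinite := by
        rcases (F \ Pair (z δ) (x δ)).eq_empty_or_nonempty with he | hne
        · rw [he]
          simpa using Set.infinite_univ
        · have h1 : F \ Pair (z δ) (x δ) ⊆ ⋃ γ ∈ Ioi β ∩ Iio δ, Pair (z γ) (x γ) := by
            rintro f ⟨hf, hf'⟩
            obtain ⟨γ, ⟨hγ1, hγ2⟩, hγ3⟩ := mem_iUnion₂.1 (hFS hf)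
            refine mem_iUnion₂.2 ⟨γ, ⟨hγ1, lt_of_le_of_ne hγ2 ?_⟩, hγ3⟩
            rintro rfl
            exact hf' hγ3
          obtain ⟨δ', hδ', hsub⟩ := finite_max (hF.subset sdiff_subset) hne h1
          apply ih δ' hδ'.2 _ (hF.subset sdiff_subset)
          refine hsub.trans ?_
          apply biUnion_subset_biUnion_left
          rintro γ ⟨⟨h1, _⟩, h2⟩
          exact ⟨h1, h2⟩
      have h2 : F \ Pair (z δ) (x δ) ⊆ ⋃ γ ∈ Iio δ, Pair (z γ) (x γ) := by
        rintro f ⟨hf, hf'⟩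
        obtain ⟨γ, ⟨_, hγ2⟩, hγ3⟩ := mem_iUnion₂.1 (hFS hf)
        refine mem_iUnion₂.2 ⟨γ, lt_of_le_of_ne hγ2 ?_, hγ3⟩
        rintro rfl
        exact hf' hγ3
      refine (hgen δ β hβδ hG _ (hF.subset sdiff_subset) h2 hmain).mono ?_
      rintro k ⟨h3, h4⟩ f hf
      by_cases hf' : f ∈ Pair (z δ) (x δ)
      · exact h4 hf'
      · exact h3 ⟨hf, hf'⟩
    · have : F = ∅ := by
        rw [← subset_empty_iff]
        refine hFS.trans ?_
        intro f hf
        obtain ⟨γ, ⟨hγ1, hγ2⟩, _⟩ := mem_iUnion₂.1 hf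
        exact hβδ (lt_of_lt_of_le hγ1 hγ2)
      rw [this]
      simpa using Set.infinite_univ

lemma key (hgen : Gen c z x) {β : ι} (hG : Good (c β)) {F : Set ℝ} (hF : F.Finite)
    (hFS : F ⊆ ⋃ γ ∈ Ioi β, Pair (z γ) (x γ)) : {k | F ⊆ c β k}.Infinite := by
  rcases F.eq_empty_or_nonempty with rfl | hne
  · simpa using Set.infinite_univ
  · obtain ⟨δ, _, hsub⟩ := finite_max hF hne hFS
    exact key_aux hgen hG δ F hF hsub

omit [WellFoundedLT ι] in
/-- Lusin property of the construction -/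
lemma lusin (hgen : Gen c z x) (hsurj : ∀ C w, ∃ α, c α = C ∧ z α = w) {D : Opens ℝ}
    (hD : Dense (D : Set ℝ)) : ∃ β, ∀ γ, β < γ → Pair (z γ) (x γ) ⊆ D := by
  obtain ⟨β, hβ, _⟩ := hsurj (fun _ => D) 0
  refine ⟨β, fun γ hγ => ?_⟩
  have hG : Good (c β) := by rw [hβ]; exact good_const hD
  have := hgen γ β hγ hG ∅ finite_empty (empty_subset _) (by simpa using Set.infinite_univ)
  obtain ⟨k, hk⟩ := this.nonempty
  have h2 := hk.2
  rw [hβ] at h2
  exact h2

end Gen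

section Compact

lemma compact_aux {W : ℕ → Set ℝ} (hW : ∀ m, IsOpen (W m)) (hmono : Monotone W)
    (hd : Dense (⋃ m, W m)) {K : Set ℝ} (hK : IsCompact K) {a b : ℝ} (hab : a < b) :
    ∃ m, ∀ z ∈ K, ∃ x ∈ Ioo a b, x ∈ W m ∧ z - x ∈ W m := by
  obtain ⟨m, hm⟩ := hK.elim_directed_cover
    (fun m => {z | ∃ x ∈ Ioo a b, x ∈ W m ∧ z - x ∈ W m}) (by
      intro m
      have : {z | ∃ x ∈ Ioo a b, x ∈ W m ∧ z - x ∈ W m} =
          ⋃ x ∈ Ioo a b ∩ W m, (fun z => z - x) ⁻¹' (W m) := by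
        ext z
        simp only [Set.mem_ofPred_eq, mem_iUnion, mem_preimage, mem_inter_iff, exists_prop]
        constructor
        · rintro ⟨x, h1, h2, h3⟩; exact ⟨x, ⟨h1, h2⟩, h3⟩
        · rintro ⟨x, ⟨h1, h2⟩, h3⟩; exact ⟨x, h1, h2, h3⟩
      rw [this]
      exact isOpen_biUnion fun x _ => (hW m).preimage (continuous_id.sub continuous_const)) (by
      intro z _
      obtain ⟨x, hx, hx1, hx2⟩ := meets (isOpen_iUnion hW) hd z hab
      obtain ⟨m1, h1⟩ := mem_iUnion.1 hx1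
      obtain ⟨m2, h2⟩ := mem_iUnion.1 hx2
      exact mem_iUnion.2 ⟨max m1 m2, x, hx, hmono (le_max_left _ _) h1,
        hmono (le_max_right _ _) h2⟩) (by
      apply Monotone.directed_le
      intro m m' hmm z hz
      obtain ⟨x, h1, h2, h3⟩ := hz
      exact ⟨x, h1, hmono hmm h2, hmono hmm h3⟩)
  exact ⟨m, fun z hz => hm hz⟩

/-- `T n` are open sets, each tail of which has dense union.  Consecutive blocks can be chosen so
that their unions form a good sequence. -/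
lemma exists_good (T : ℕ → Opens ℝ) (hd : ∀ k, Dense (⋃ n ∈ Ici k, (T n : Set ℝ))) :
    ∃ (m : ℕ → ℕ) (O : ℕ → Opens ℝ), StrictMono m ∧ m 0 = 0 ∧ Good O ∧
      ∀ j, (O j : Set ℝ) = ⋃ n ∈ Ico (m j) (m (j + 1)), (T n : Set ℝ) := by
  obtain ⟨q, hq⟩ := exists_surjective_nat (ℚ × ℚ)
  have hstep : ∀ j k : ℕ, ∃ k', k < k' ∧ ∀ i ≤ j, ((q i).1 : ℝ) < (q i).2 →
      ∀ z ∈ Icc (-(j : ℝ)) j, ∃ x ∈ Ioo ((q i).1 : ℝ) (q i).2,
        x ∈ (⋃ n ∈ Ico k k', (T n : Set ℝ)) ∧ z - x ∈ (⋃ n ∈ Ico k k', (T n : Set ℝ)) := by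
    intro j k
    set W : ℕ → Set ℝ := fun m => ⋃ n ∈ Ico k m, (T n : Set ℝ) with hWdef
    have hmono : Monotone W := by
      intro m m' hmm
      exact biUnion_subset_biUnion_left (Ico_subset_Ico_right hmm)
    have hWo : ∀ m, IsOpen (W m) := fun m => isOpen_biUnion fun n _ => (T n).isOpen
    have hWd : Dense (⋃ m, W m) := by
      refine (hd k).mono ?_
      intro y hy
      obtain ⟨n, hn, hy⟩ := mem_iUnion₂.1 hy
      exact mem_iUnion.2 ⟨n + 1, mem_iUnion₂.2 ⟨n, ⟨hn, Nat.lt_succ_self n⟩, hy⟩⟩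
    have hi : ∀ i ≤ j, ∀ᶠ m in Filter.atTop, ((q i).1 : ℝ) < (q i).2 →
      ∀ z ∈ Icc (-(j : ℝ)) j, ∃ x ∈ Ioo ((q i).1 : ℝ) (q i).2, x ∈ W m ∧ z - x ∈ W m := by
      intro i _
      by_cases hlt : ((q i).1 : ℝ) < (q i).2
      · obtain ⟨m, hm⟩ := compact_aux hWo hmono hWd
          (isCompact_Icc (a := -(j : ℝ)) (b := (j : ℝ))) hlt
        filter_upwards [Filter.eventually_ge_atTop m] with m' hm' _ z hz
        obtain ⟨x, h1, h2, h3⟩ := hm z hz
        exact ⟨x, h1, hmono hm' h2, hmono hm' h3⟩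
      · exact Filter.Eventually.of_forall fun _ h => (hlt h).elim
    have hall : ∀ᶠ m in Filter.atTop, ∀ i ∈ Finset.range (j + 1), ((q i).1 : ℝ) < (q i).2 →
      ∀ z ∈ Icc (-(j : ℝ)) j, ∃ x ∈ Ioo ((q i).1 : ℝ) (q i).2, x ∈ W m ∧ z - x ∈ W m := by
      rw [Filter.eventually_all_finset]
      intro i hij
      exact hi i (Nat.lt_succ_iff.1 (Finset.mem_range.1 hij))
    obtain ⟨k', hk', hkk⟩ := (hall.and (Filter.eventually_gt_atTop k)).exists
    exact ⟨k', hkk, fun i hij => hk' i (Finset.mem_range.2 (Nat.lt_succ_iff.2 hij))⟩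
  obtain ⟨m, hm, hm0, hmp⟩ := exists_seq _ hstep
  refine ⟨m, fun j => ⟨⋃ n ∈ Ico (m j) (m (j + 1)), (T n : Set ℝ),
    isOpen_biUnion fun n _ => (T n).isOpen⟩, hm, hm0, ?_, fun j => rfl⟩
  intro z a b hab
  obtain ⟨p, hp1, hp2⟩ := exists_rat_btwn hab
  obtain ⟨r, hr1, hr2⟩ := exists_rat_btwn hp2
  obtain ⟨i, hi⟩ := hq (p, r)
  obtain ⟨N, hN⟩ := exists_nat_ge |z|
  refine ⟨max i N, fun j hj => ?_⟩
  have hiq : ((q i).1 : ℝ) < (q i).2 := by rw [hi]; exact hr1
  have hzN : z ∈ Icc (-(j : ℝ)) j := by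
    have h1 : (N : ℝ) ≤ j := by exact_mod_cast (le_max_right _ _).trans hj
    have := abs_le.1 (hN.trans h1)
    exact ⟨this.1, this.2⟩
  obtain ⟨x, hx, hx1, hx2⟩ := hmp j i ((le_max_left _ _).trans hj) hiq z hzN
  rw [hi] at hx
  exact ⟨x, ⟨hp1.trans hx.1, hx.2.trans hr2⟩, hx1, hx2⟩

end Compact

section Main

variable {ι : Type} [LinearOrder ι] [WellFoundedLT ι] {c : ι → ℕ → Opens ℝ} {z x : ι → ℝ}

/-- The set of reals: the rationals and all `x α`, `z α - x α`. -/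
def TheSet (z x : ι → ℝ) : Set ℝ := range ((↑) : ℚ → ℝ) ∪ ⋃ α, Pair (z α) (x α)

omit [LinearOrder ι] [WellFoundedLT ι] in
lemma pair_sub (α : ι) : Pair (z α) (x α) ⊆ TheSet z x :=
  subset_union_of_subset_right (subset_iUnion (fun α => Pair (z α) (x α)) α) _

/-- the rational points of the space -/
def rat (z x : ι → ℝ) (q : ℚ) : TheSet z x := ⟨q, Or.inl ⟨q, rfl⟩⟩

/-- the part of the space with index at most `β` -/
def Small (z x : ι → ℝ) (β : ι) : Set ℝ :=
  range ((↑) : ℚ → ℝ) ∪ ⋃ γ ∈ Iic β, Pair (z γ) (x γ)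

omit [WellFoundedLT ι] in
lemma small_countable (hcount : ∀ α : ι, (Iio α).Countable) (β : ι) :
    (Small z x β).Countable := by
  refine (countable_range _).union (Countable.biUnion ?_ fun γ _ => pair_finite.countable)
  have : Iic β ⊆ insert β (Iio β) := by
    intro γ hγ
    rcases lt_or_eq_of_le (show γ ≤ β from hγ) with h | h
    · exact Or.inr h
    · exact Or.inl h
  exact ((hcount β).insert β).mono this

omit [WellFoundedLT ι] in
lemma not_small {β : ι} {y : ℝ} (hy : y ∈ TheSet z x) (hs : y ∉ Small z x β) :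
    y ∈ ⋃ γ ∈ Ioi β, Pair (z γ) (x γ) := by
  rcases hy with hy | hy
  · exact (hs (Or.inl hy)).elim
  · obtain ⟨γ, hγ⟩ := mem_iUnion.1 hy
    rcases lt_or_ge β γ with h | h
    · exact mem_iUnion₂.2 ⟨γ, h, hγ⟩
    · exact (hs (Or.inr (mem_iUnion₂.2 ⟨γ, h, hγ⟩))).elim

/-- every open set of the subspace is the trace of an open set of reals -/
lemma exists_trace {X : Set ℝ} {U : Set X} (hU : IsOpen U) :
    ∃ T : Opens ℝ, Subtype.val ⁻¹' (T : Set ℝ) = U := by
  obtain ⟨t, ht, htU⟩ := isOpen_induced_iff.1 hU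
  exact ⟨⟨t, ht⟩, htU⟩

omit [WellFoundedLT ι] in
/-- First step: a selection in which each point is covered by infinitely many sets. -/
lemma selection (hgen : Gen c z x) (hsurj : ∀ C w, ∃ α, c α = C ∧ z α = w)
    (hcount : ∀ α : ι, (Iio α).Countable) {𝒰 : ℕ → Set (Set (TheSet z x))}
    (h : ∀ n, OmegaCover (𝒰 n)) :
    ∃ U : ℕ → Set (TheSet z x), (∀ n, U n ∈ 𝒰 n) ∧
      ∀ y, {V ∈ range U | y ∈ V}.Infinite := by
  obtain ⟨q, hq⟩ := exists_surjective_nat ℚ
  obtain ⟨A, hA, hFA, hAinj⟩ := exists_inj_selection (𝒰 := fun n => 𝒰 (2 * n))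
    (fun n => h (2 * n)) (fun n => {rat z x (q n.unpair.1)}) (fun n => finite_singleton _)
  have hAo : ∀ n, IsOpen (A n) := fun n => (h _).1.1 _ (hA n)
  choose T hT using fun n => exists_trace (hAo n)
  have hrat : ∀ (r : ℚ) (m : ℕ), ∃ n, m ≤ n ∧ rat z x r ∈ A n := by
    intro r m
    obtain ⟨j, rfl⟩ := hq r
    refine ⟨Nat.pair j m, Nat.right_le_pair j m, ?_⟩
    have := hFA (Nat.pair j m)
    simp only [Nat.unpair_pair] at this
    exact this rfl
  set D : ℕ → Opens ℝ := fun m => ⟨⋃ n ∈ Ici m, (T n : Set ℝ),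
    isOpen_biUnion fun n _ => (T n).isOpen⟩ with hD
  have hmemT : ∀ n (y : TheSet z x), y ∈ A n ↔ (y : ℝ) ∈ T n := by
    intro n y
    rw [← hT n]; rfl
  have hDd : ∀ m, Dense (D m : Set ℝ) := by
    intro m
    refine Rat.isDenseEmbedding_coe_real.dense.mono ?_
    rintro _ ⟨r, rfl⟩
    obtain ⟨n, hn, hr⟩ := hrat r m
    exact mem_iUnion₂.2 ⟨n, hn, (hmemT n _).1 hr⟩
  choose β hβ using fun m => lusin hgen hsurj (hDd m)
  set E : Set (TheSet z x) := insert (rat z x 0) {y | ∃ m, (y : ℝ) ∉ D m} with hE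
  have hEc : E.Countable := by
    have h1 : {y : TheSet z x | ∃ m, (y : ℝ) ∉ D m} ⊆
        Subtype.val ⁻¹' (⋃ m, Small z x (β m)) := by
      rintro y ⟨m, hm⟩
      refine mem_iUnion.2 ⟨m, ?_⟩
      by_contra hs
      obtain ⟨γ, hγ, hyγ⟩ := mem_iUnion₂.1 (not_small y.2 hs)
      exact hm (hβ m γ hγ hyγ)
    have h2 : (Subtype.val ⁻¹' (⋃ m, Small z x (β m)) : Set (TheSet z x)).Countable :=
      (countable_iUnion fun m => small_countable hcount (β m)).preimage Subtype.val_injective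
    exact (h2.mono h1).insert _
  obtain ⟨e, he⟩ := hEc.exists_eq_range (insert_nonempty _ _)
  obtain ⟨B, hB, hFB, hBinj⟩ := exists_inj_selection (𝒰 := fun n => 𝒰 (2 * n + 1))
    (fun n => h (2 * n + 1)) (fun n => {e n.unpair.1}) (fun n => finite_singleton _)
  refine ⟨fun n => if n % 2 = 0 then A (n / 2) else B (n / 2), fun n => ?_, fun y => ?_⟩
  · rcases Nat.mod_two_eq_zero_or_one n with h0 | h1
    · simp only [h0, if_true]
      have := hA (n / 2)
      have e1 : 2 * (n / 2) = n := by omega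
      simp only [e1] at this
      exact this
    · have h0 : ¬ (n % 2 = 0) := by omega
      simp only [h0, if_false]
      have := hB (n / 2)
      have e1 : 2 * (n / 2) + 1 = n := by omega
      simp only [e1] at this
      exact this
  · have hrA : ∀ n, A n ∈ range (fun n => if n % 2 = 0 then A (n / 2) else B (n / 2)) := by
      intro n
      refine ⟨2 * n, ?_⟩
      have e1 : (2 * n) % 2 = 0 := by omega
      have e2 : 2 * n / 2 = n := by omega
      simp only [e1, e2, if_true]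
    have hrB : ∀ n, B n ∈ range (fun n => if n % 2 = 0 then A (n / 2) else B (n / 2)) := by
      intro n
      refine ⟨2 * n + 1, ?_⟩
      have e1 : ¬ ((2 * n + 1) % 2 = 0) := by omega
      have e2 : (2 * n + 1) / 2 = n := by omega
      simp only [e1, e2, if_false]
    by_cases hy : y ∈ E
    · rw [he] at hy
      obtain ⟨j, rfl⟩ := hy
      have hinf : {n | e j ∈ B n}.Infinite := by
        apply Set.infinite_of_forall_exists_gt
        intro m
        refine ⟨Nat.pair j (m + 1), ?_, lt_of_lt_of_le (Nat.lt_succ_self m)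
          (Nat.right_le_pair j (m + 1))⟩
        have := hFB (Nat.pair j (m + 1))
        simp only [Nat.unpair_pair] at this
        exact this rfl
      refine (hinf.image hBinj.injOn).mono ?_
      rintro _ ⟨n, hn, rfl⟩
      exact ⟨hrB n, hn⟩
    · have hinf : {n | y ∈ A n}.Infinite := by
        apply Set.infinite_of_forall_exists_gt
        intro m
        have h1 : (y : ℝ) ∈ D (m + 1) := by
          by_contra hc
          exact hy (Or.inr ⟨m + 1, hc⟩)
        obtain ⟨n, hn, hyn⟩ := mem_iUnion₂.1 h1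
        exact ⟨n, (hmemT n y).2 hyn, lt_of_lt_of_le (Nat.lt_succ_self m) hn⟩
      refine (hinf.image hAinj.injOn).mono ?_
      rintro _ ⟨n, hn, rfl⟩
      exact ⟨hrA n, hn⟩

/-- Second step: grouping. -/
lemma grouping (hgen : Gen c z x) (hsurj : ∀ C w, ∃ α, c α = C ∧ z α = w)
    (hcount : ∀ α : ι, (Iio α).Countable) {V : ℕ → Set (TheSet z x)}
    (hV : Function.Injective V) (hopen : ∀ n, IsOpen (V n)) (hne : ∀ n, V n ≠ univ)
    (hinf : ∀ y, {n | y ∈ V n}.Infinite) : OmegaGroupable (range V) := by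
  choose T hT using fun n => exists_trace (hopen n)
  have hmemT : ∀ n (y : TheSet z x), y ∈ V n ↔ (y : ℝ) ∈ T n := by
    intro n y
    rw [← hT n]; rfl
  have hd : ∀ k, Dense (⋃ n ∈ Ici k, (T n : Set ℝ)) := by
    intro k
    refine Rat.isDenseEmbedding_coe_real.dense.mono ?_
    rintro _ ⟨r, rfl⟩
    obtain ⟨n, hn, hkn⟩ := (hinf (rat z x r)).exists_gt k
    exact mem_iUnion₂.2 ⟨n, hkn.le, (hmemT n _).1 hn⟩
  obtain ⟨m, O, hm, hm0, hG, hO⟩ := exists_good T hd
  obtain ⟨β, hβ, _⟩ := hsurj O 0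
  set C : Set (TheSet z x) := Subtype.val ⁻¹' (Small z x β) with hC
  have hCc : C.Countable := (small_countable hcount β).preimage Subtype.val_injective
  have hCne : C.Nonempty := ⟨rat z x 0, Or.inl ⟨0, rfl⟩⟩
  obtain ⟨e, he⟩ := hCc.exists_eq_range hCne
  have hstep : ∀ i j : ℕ, ∃ j', j < j' ∧ ∀ l ≤ i, ∃ n ∈ Ico (m j) (m j'), e l ∈ V n := by
    intro i j
    have h1 : ∀ l, ∀ᶠ j' in Filter.atTop, ∃ n ∈ Ico (m j) (m j'), e l ∈ V n := by
      intro l
      obtain ⟨n, hn, hjn⟩ := (hinf (e l)).exists_gt (m j)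
      filter_upwards [Filter.eventually_gt_atTop n] with j' hj'
      exact ⟨n, ⟨hjn.le, lt_of_lt_of_le hj' (hm.id_le j')⟩, hn⟩
    have h2 : ∀ᶠ j' in Filter.atTop, ∀ l ∈ Finset.range (i + 1),
        ∃ n ∈ Ico (m j) (m j'), e l ∈ V n := by
      rw [Filter.eventually_all_finset]
      exact fun l _ => h1 l
    obtain ⟨j', h3, h4⟩ := (h2.and (Filter.eventually_gt_atTop j)).exists
    exact ⟨j', h4, fun l hl => h3 l (Finset.mem_range.2 (Nat.lt_succ_iff.2 hl))⟩
  obtain ⟨J, hJ, hJ0, hJp⟩ := exists_seq _ hstep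
  refine groupable_of_inf hV hne hopen (M := fun i => m (J i)) (hm.comp hJ)
    (by simp only [hJ0, hm0]) ?_
  intro F hF
  have hF1 : {k | Subtype.val '' (F \ C) ⊆ (O k : Set ℝ)}.Infinite := by
    have := key hgen (β := β) (by rw [hβ]; exact hG) (F := Subtype.val '' (F \ C))
      ((hF.subset sdiff_subset).image _) (by
        rintro _ ⟨y, hy, rfl⟩
        exact not_small y.2 hy.2)
    rwa [hβ] at this
  have hF0 : ∃ N, ∀ y ∈ F, y ∈ C → ∃ l ≤ N, e l = y := by
    have : ∀ y : TheSet z x, ∃ l, y ∈ C → e l = y := by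
      intro y
      by_cases hy : y ∈ C
      · rw [he] at hy
        obtain ⟨l, hl⟩ := hy
        exact ⟨l, fun _ => hl⟩
      · exact ⟨0, fun h => (hy h).elim⟩
    choose g hg using this
    obtain ⟨N, hN⟩ := (hF.image g).bddAbove
    exact ⟨N, fun y hy hyC => ⟨g y, hN ⟨y, hy, rfl⟩, hg y hyC⟩⟩
  obtain ⟨N, hN⟩ := hF0
  apply Set.infinite_of_forall_exists_gt
  intro i₀
  obtain ⟨k, hk, hkk⟩ := hF1.exists_gt (J (max N (i₀ + 1)))
  obtain ⟨i, hi⟩ := exists_block hJ hJ0 k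
  have hNi : max N (i₀ + 1) ≤ i := by
    by_contra hlt
    have h1 : i + 1 ≤ max N (i₀ + 1) := by omega
    have h2 := hJ.monotone h1
    have h3 := hi.2
    omega
  refine ⟨i, ?_, ?_⟩
  · intro y hy
    by_cases hyC : y ∈ C
    · obtain ⟨l, hl, rfl⟩ := hN y hy hyC
      obtain ⟨n, hn, hyn⟩ := hJp i l (hl.trans ((le_max_left _ _).trans hNi))
      exact ⟨V n, ⟨n, hn, rfl⟩, hyn⟩
    · have h1 : (y : ℝ) ∈ (O k : Set ℝ) := hk ⟨y, ⟨hy, hyC⟩, rfl⟩
      rw [hO k] at h1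
      obtain ⟨n, hn, hyn⟩ := mem_iUnion₂.1 h1
      refine ⟨V n, ⟨n, ⟨?_, ?_⟩, rfl⟩, (hmemT n y).2 hyn⟩
      · exact (hm.monotone hi.1).trans hn.1
      · exact lt_of_lt_of_le hn.2 (hm.monotone (Nat.succ_le_of_lt hi.2))
  · have := (le_max_right N (i₀ + 1)).trans hNi
    omega

lemma theSet_gp (hgen : Gen c z x) (hsurj : ∀ C w, ∃ α, c α = C ∧ z α = w)
    (hcount : ∀ α : ι, (Iio α).Countable) : S1 (X := TheSet z x) OmegaCover OmegaGpCover := by
  intro 𝒰 h
  obtain ⟨U, hU, hinf⟩ := selection hgen hsurj hcount h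
  have hopen : ∀ V ∈ range U, IsOpen V := by
    rintro _ ⟨n, rfl⟩
    exact (h n).1.1 _ (hU n)
  have hne : univ ∉ range U := by
    rintro ⟨n, hn⟩
    exact (h n).1.2.2 (hn ▸ hU n)
  refine ⟨U, hU, ⟨hopen, ?_, hne⟩, ?_⟩
  · apply Subset.antisymm (subset_univ _)
    intro y _
    obtain ⟨V, hV, hy⟩ := (hinf y).nonempty
    exact ⟨V, hV, hy⟩
  · obtain ⟨V, hV, hVr⟩ := exists_enum (countable_range U)
      ((hinf (rat z x 0)).mono fun W hW => hW.1)
    rw [← hVr]
    apply grouping hgen hsurj hcount hV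
    · intro n
      exact hopen _ (hVr ▸ ⟨n, rfl⟩)
    · intro n hn
      exact hne (hVr ▸ ⟨n, hn⟩)
    · intro y
      have h1 := hinf y
      rw [← hVr] at h1
      apply Set.Infinite.of_image V
      refine h1.mono ?_
      rintro _ ⟨⟨n, rfl⟩, hy⟩
      exact ⟨n, hy, rfl⟩

omit [LinearOrder ι] [WellFoundedLT ι] in
lemma theSet_not (hz : Function.Surjective z) :
    ¬ S1 (X := TheSet z x) OmegaCover OmegaCover := by
  intro h
  set δ : ℕ → ENNReal := fun n => (2⁻¹ : ENNReal) ^ (n + 1) with hδ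
  have hδpos : ∀ n, 0 < δ n := fun n => ENNReal.pow_pos (by simp) _
  have hbig : ∀ S : Set ℝ, (∀ w : ℝ, w ∈ S) → volume S = ⊤ := by
    intro S hS
    have : S = univ := eq_univ_of_forall hS
    rw [this]
    exact Real.volume_univ
  set 𝒰 : ℕ → Set (Set (TheSet z x)) := fun n => {U | ∃ T : Set ℝ, IsOpen T ∧
    volume (T + T) ≤ δ n ∧ U = Subtype.val ⁻¹' T} with h𝒰
  have hω : ∀ n, OmegaCover (𝒰 n) := by
    intro n
    have hfin : ∀ F : Set (TheSet z x), F.Finite → ∃ U ∈ 𝒰 n, F ⊆ U := by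
      intro F hF
      set G : Set ℝ := Subtype.val '' F with hG
      have hGf : G.Finite := hF.image _
      have h0 : volume (G + G) = 0 := (hGf.add hGf).measure_zero _
      obtain ⟨W, hGW, hWo, hW⟩ := (G + G).exists_isOpen_lt_of_lt (μ := volume) (δ n)
        (by rw [h0]; exact hδpos n)
      obtain ⟨u, v, hu, hv, hGu, hGv, huv⟩ := generalized_tube_lemma hGf.isCompact hGf.isCompact
        (hWo.preimage (continuous_fst.add continuous_snd : Continuous fun p : ℝ × ℝ => p.1 + p.2))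
        (by
          rintro ⟨a, b⟩ ⟨ha, hb⟩
          exact hGW (add_mem_add ha hb))
      refine ⟨Subtype.val ⁻¹' (u ∩ v), ⟨u ∩ v, hu.inter hv, ?_, rfl⟩, ?_⟩
      · refine (measure_mono ?_).trans hW.le
        rintro _ ⟨a, ha, b, hb, rfl⟩
        exact huv (show (a, b) ∈ u ×ˢ v from ⟨ha.1, hb.2⟩)
      · intro y hy
        exact ⟨hGu ⟨y, hy, rfl⟩, hGv ⟨y, hy, rfl⟩⟩
    refine ⟨⟨?_, ?_, ?_⟩, hfin⟩
    · rintro _ ⟨T, hT, _, rfl⟩
      exact hT.preimage continuous_subtype_val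
    · apply Subset.antisymm (subset_univ _)
      intro y _
      obtain ⟨U, hU, hy⟩ := hfin {y} (finite_singleton y)
      exact ⟨U, hU, hy rfl⟩
    · rintro ⟨T, hT, hvol, hTu⟩
      have h1 : volume (T + T) = ⊤ := by
        apply hbig
        intro w
        obtain ⟨α, rfl⟩ := hz w
        have hx : x α ∈ T := by
          have : (⟨x α, pair_sub α (Or.inl rfl)⟩ : TheSet z x) ∈ (univ : Set (TheSet z x)) :=
            trivial
          rw [hTu] at this
          exact this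
        have hzx : z α - x α ∈ T := by
          have : (⟨z α - x α, pair_sub α (Or.inr rfl)⟩ : TheSet z x) ∈
              (univ : Set (TheSet z x)) := trivial
          rw [hTu] at this
          exact this
        exact ⟨x α, hx, z α - x α, hzx, by ring⟩
      rw [h1, top_le_iff] at hvol
      exact ENNReal.pow_ne_top (by simp) hvol
  obtain ⟨U, hU, hcov⟩ := h 𝒰 hω
  choose T hTo hTv hUT using hU
  have h1 : volume (⋃ n, (T n + T n)) = ⊤ := by
    apply hbig
    intro w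
    obtain ⟨α, rfl⟩ := hz w
    obtain ⟨_, ⟨n, rfl⟩, hn⟩ := hcov.2
      {⟨x α, pair_sub α (Or.inl rfl)⟩, ⟨z α - x α, pair_sub α (Or.inr rfl)⟩}
      ((finite_singleton _).insert _)
    rw [hUT n] at hn
    have h2 := hn (Or.inl rfl)
    have h3 := hn (Or.inr rfl)
    exact mem_iUnion.2 ⟨n, x α, h2, z α - x α, h3, by ring⟩
  have h2 : volume (⋃ n, (T n + T n)) ≤ 1 := by
    refine (measure_iUnion_le _).trans ?_
    refine (ENNReal.tsum_le_tsum hTv).trans ?_
    rw [ENNReal.tsum_geometric_add_one]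
    simp
  rw [h1] at h2
  simp at h2

end Main

end CH

/-- Under CH the classes `S₁(Ω, Ω)` and `S₁(Ω, O^{ω-gp})` of sets of reals differ; under the
Borel conjecture they coincide. -/
theorem result :
    (∃ (P : Type) (_ : Preorder P), Nonempty P ∧ ∀ p : P,
      p ∈ Pool.Agent.Helper292.ForceCH.OmegaOnePreserved P ∧
      p ∈ Pool.Agent.Helper292.ForceCH.CHHolds P) ∧
    ((Cardinal.aleph 1 : Cardinal.{0}) = Cardinal.continuum →
      ∃ X : Set ℝ, S1 (X := X) OmegaCover OmegaGpCover ∧ ¬ S1 (X := X) OmegaCover OmegaCover) ∧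
    (BorelConjecture →
      ∀ X : Set ℝ, S1 (X := X) OmegaCover OmegaCover ↔ S1 (X := X) OmegaCover OmegaGpCover) := by
  refine ⟨?_, fun CH => ?_, iff_of_BC⟩
  · obtain ⟨P, i, h1, h2⟩ := Pool.Agent.Helper292.ForceCH.exists_forcing
    exact ⟨P, i, h1, fun p => ⟨(h2 p).1, (h2 p).2.2⟩⟩
  · obtain ⟨ι, _, _, c, z, x, hcount, hsurj, hgen⟩ := exists_data CH
    refine ⟨TheSet z x, theSet_gp hgen hsurj hcount, theSet_not fun w => ?_⟩
    obtain ⟨α, _, hα⟩ := hsurj (fun _ => ⊥) w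
    exact ⟨α, hα⟩

end Pool.Agent.Results.MP_ef066b_gt.Independence
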